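import Pool.Agent.W187.WQ.Fx2

/-!
Rational list against integer list.
-/

open Pool.Agent.W187.WQ

namespace Pool.Agent.W227.WQ

theorem near_aux (D : ℤ) : ∀ (p : List ℚ) (l : List ℤ) (k : ℕ) (f : ℕ → ℝ),
    near1 (D : ℚ) p l = true → (∀ j, f (k + j) = ((p.getD j 0 : ℚ) : ℝ)) →
    l.length = p.length ∧ Apx D 1 f k l
  | [], [], k, f, _, _ => ⟨rfl, trivial⟩
  | [], b :: l, k, f, h, _ => by simp [near1] at h
  | a :: p, [], k, f, h, _ => by simp [near1] at h
  | a :: p, b :: l, k, f, h, hf => by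
    unfold near1 at h
    rw [Bool.and_eq_true, decide_eq_true_eq] at h
    obtain ⟨h1, h2⟩ := near_aux D p l (k + 1) f h.2 (fun j => by
      have := hf (j + 1)
      rw [List.getD_cons_succ] at this
      rw [← this]
      congr 1
      omega)
    refine ⟨by rw [List.length_cons, List.length_cons, h1], ?_, h2⟩
    have h3 := hf 0
    rw [Nat.add_zero, List.getD_cons_zero] at h3
    rw [h3]
    have h4 : ((|(D : ℚ) * a - (b : ℚ)| : ℚ) : ℝ) ≤ ((1 : ℚ) : ℝ) := by exact_mod_cast h.1
    push_cast at h4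
    exact h4

theorem near : S_NEAR := by
  intro D p l h
  exact near_aux D p l 0 _ h (fun j => by rw [Nat.zero_add])

end Pool.Agent.W227.WQ
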